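import Pool.Agent.W184.Const

set_option autoImplicit false

/-!
MP_91b7ff_nt, exponent `k = 1`: unconditional explicit upper and lower bounds of the conjectured order
for the first absolute moment `M_1(T) = ∫_0^T |ζ(1/2+it)| dt`.
-/

open Filter

theorem Pool.Agent.Results.MP_91b7ff_nt.FirstMoment.result :
    ∀ᶠ T : ℝ in atTop,
      64 / 125 * (∏' p : Nat.Primes, ((1 - 1 / (p : ℝ)) ^ ((1 : ℝ) / 4) *
          ∑' m : ℕ, (∏ i ∈ Finset.range m, ((1 : ℝ) / 2 + i) / ((i : ℝ) + 1)) ^ 2 *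
            (1 / (p : ℝ)) ^ m)) / Real.Gamma ((1 : ℝ) / 4 + 1) *
        (T * Real.log T ^ ((1 : ℝ) / 4)) ≤
        ∫ t in (0:ℝ)..T, ‖riemannZeta (1 / 2 + t * Complex.I)‖ ∧
      ∫ t in (0:ℝ)..T, ‖riemannZeta (1 / 2 + t * Complex.I)‖ ≤
      663 / 200 * (∏' p : Nat.Primes, ((1 - 1 / (p : ℝ)) ^ ((1 : ℝ) / 4) *
          ∑' m : ℕ, (∏ i ∈ Finset.range m, ((1 : ℝ) / 2 + i) / ((i : ℝ) + 1)) ^ 2 *
            (1 / (p : ℝ)) ^ m)) / Real.Gamma ((1 : ℝ) / 4 + 1) *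
        (T * Real.log T ^ ((1 : ℝ) / 4)) := by
  have e : Pool.Agent.H306R2.aF (1 / ((2:ℕ):ℝ)) =
      ∏' p : Nat.Primes, ((1 - 1 / (p : ℝ)) ^ ((1 : ℝ) / 4) *
          ∑' m : ℕ, (∏ i ∈ Finset.range m, ((1 : ℝ) / 2 + i) / ((i : ℝ) + 1)) ^ 2 *
            (1 / (p : ℝ)) ^ m) := by
    unfold Pool.Agent.H306R2.aF Pool.Agent.H306R2.lc
    rw [show (1 / ((2:ℕ):ℝ)) ^ 2 = (1:ℝ) / 4 by norm_num, show (1 / ((2:ℕ):ℝ)) = (1:ℝ) / 2 by norm_num]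
  have e2 : ∀ T : ℝ, ∫ t in (0:ℝ)..T, Pool.Agent.W184.zn (1 / 2) t ^ (2 / ((2:ℕ):ℝ)) =
      ∫ t in (0:ℝ)..T, ‖riemannZeta (1 / 2 + t * Complex.I)‖ := by
    intro T
    refine intervalIntegral.integral_congr fun t _ => ?_
    rw [show (2 / ((2:ℕ):ℝ)) = (1:ℝ) by norm_num, Real.rpow_one]
    unfold Pool.Agent.W184.zn
    norm_num
  filter_upwards [Pool.Agent.W184.first_lower, Pool.Agent.W184.first_upper] with T h1 h2
  unfold Pool.Agent.W184.MM at h1 h2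
  rw [e2, e, show (1 / ((2:ℕ):ℝ)) ^ 2 = (1:ℝ) / 4 by norm_num] at h1 h2
  exact ⟨h1, h2⟩
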