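import Mathlib
import Pool.Agent.W188.GP.All
import Pool.Agent.W188.GP.Trans

/-!
# Moments of zeta and the points on one line

Let `u ≠ 0` and consider the heights `t > 100` at which `ζ(1/2 + it)` is a nonzero point of the line `ℝ u` through
`0` (for `u = 1` these are the Gram points at which `ζ(1/2 + it) ≠ 0`).  There are about `T log T / (2π)` of them
up to `T`.  For every real exponent `p > 1` and EVERY line:

* the `p`-th moment `∫ |ζ(1/2 + it)|^p dt` and `1 / log T` times the sum of `|ζ(1/2 + it)|^p` over the points on the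
  line have the same order of magnitude (with constants that depend only on `p`, blocks `(T, 8T]`);
* the bound `∫_0^T |ζ|^p = O(T (log T)^A)` is equivalent to `O(T (log T)^(A+1))` for the sum over the points on the
  line, for every `A ≥ 0`; with `A = k^2/4` this is the bound of the conjectured order for the exponent `p = k`;
* for `p ≥ 2` the sum over the points on the line is at least `c T (log T)^(p^2/4 + 1)`.

Proof.  The residue theorem for `ζ(s) exp((s - s₀)^2) / ((1 - c χ(1-s)^{-1}) (s - s₀))` expresses `ζ(s₀)` on the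
critical line through the values at the points on the line, up to a bounded error; in terms of the phase the kernel
is `sin(πx)/(n - j - x)` and the discrete Hilbert transform is bounded on `ℓ^p` for `1 < p < ∞` (Cotlar's identity,
Riesz-Thorin, duality).  So any two lines are comparable, and the average over all lines is the moment.

Parts were formalized by the team (see the imported files), plan and assembly by helper188.
-/

set_option autoImplicit false

open Filter Topology Set MeasureTheory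

namespace Pool.Agent.Results.MP_91b7ff_nt.OneLineMoments

/-- The value `ζ(1/2 + it)`. -/
noncomputable def z (t : ℝ) : ℂ := riemannZeta (1 / 2 + t * Complex.I)

/-- The heights `t > 100` at which `ζ(1/2 + it)` is a nonzero point of the line `ℝ u`. -/
def Pts (u : ℂ) : Set ℝ := {t | 100 < t ∧ ∃ r : ℝ, r ≠ 0 ∧ z t = r * u}

/-- The sum of `|ζ(1/2 + it)|^p` over the heights `S < t ≤ T` in `Pts u`. -/
noncomputable def D (p : ℝ) (u : ℂ) (S T : ℝ) : ℝ := ∑ᶠ t ∈ Pts u ∩ Ioc S T, ‖z t‖ ^ p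

open Pool.Agent.W188.QS Pool.Agent.W188.GP

lemma D_eq {u : ℂ} (hu : u ≠ 0) : ∃ γ : ℝ, ∀ p S T : ℝ, 0 < p → 100 ≤ S →
    D p u S T = DD p γ S T ∧ (Pts u ∩ Ioc S T).Finite := by
  obtain ⟨γ, h⟩ := trans a_tau hu
  exact ⟨γ, fun p S T hp hS => h p S T hp hS⟩

theorem result :
    (∀ (u : ℂ) (T : ℝ), u ≠ 0 → (Pts u ∩ Iic T).Finite) ∧
    (∀ p : ℝ, 1 < p → ∃ C T₀ : ℝ, 0 < C ∧ ∀ (u : ℂ) (T : ℝ), u ≠ 0 → T₀ ≤ T →
      Real.log T * ∫ t in T..(8 * T), ‖z t‖ ^ p ≤ C * D p u (T / 2) (16 * T) ∧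
      D p u T (8 * T) ≤ C * (Real.log T * ∫ t in (T / 2)..(16 * T), ‖z t‖ ^ p)) ∧
    (∀ (p A : ℝ) (u : ℂ), 1 < p → 0 ≤ A → u ≠ 0 →
      ((∃ B : ℝ, ∀ T : ℝ, 2 ≤ T → ∫ t in (0 : ℝ)..T, ‖z t‖ ^ p ≤ B * (T * Real.log T ^ A)) ↔
        (∃ B : ℝ, ∀ T : ℝ, 2 ≤ T → D p u 100 T ≤ B * (T * Real.log T ^ (A + 1))))) ∧
    (∀ p : ℝ, 2 ≤ p → ∃ c T₀ : ℝ, 0 < c ∧ ∀ (u : ℂ) (T : ℝ), u ≠ 0 → T₀ ≤ T →
      c * (T * Real.log T ^ (p ^ 2 / 4 + 1)) ≤ D p u (T / 2) (16 * T)) := by
  refine ⟨fun u T hu => ?_, fun p hp => ?_, fun p A u hp hA hu => ?_, fun p hp => ?_⟩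
  · obtain ⟨γ, h⟩ := D_eq hu
    refine (h 1 100 T one_pos le_rfl).2.subset ?_
    rintro t ⟨h1, h2⟩
    exact ⟨h1, h1.1, h2⟩
  · obtain ⟨C, T₀, hC, h⟩ := a_fin p hp
    refine ⟨C, max T₀ 200, hC, fun u T hu hT => ?_⟩
    have h1 : T₀ ≤ T := (le_max_left _ _).trans hT
    have h2 : 200 ≤ T := (le_max_right _ _).trans hT
    obtain ⟨γ, hγ⟩ := D_eq hu
    rw [(hγ p (T / 2) (16 * T) (by linarith) (by linarith)).1,
      (hγ p T (8 * T) (by linarith) (by linarith)).1]
    exact h T γ h1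
  · obtain ⟨γ, hγ⟩ := D_eq hu
    have e : ∀ T, D p u 100 T = DD p γ 100 T := fun T => (hγ p 100 T (by linarith) le_rfl).1
    simp only [e]
    exact growth a_tau a_fin hp γ hA
  · obtain ⟨c, T₀, hc, h⟩ := disc_lower a_fin hp
    refine ⟨c, max T₀ 200, hc, fun u T hu hT => ?_⟩
    have h1 : T₀ ≤ T := (le_max_left _ _).trans hT
    have h2 : 200 ≤ T := (le_max_right _ _).trans hT
    obtain ⟨γ, hγ⟩ := D_eq hu
    rw [(hγ p (T / 2) (16 * T) (by linarith) (by linarith)).1]
    exact h T γ h1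

end Pool.Agent.Results.MP_91b7ff_nt.OneLineMoments
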